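import Pool.Agent.W861.TF.Stm

/-!
Project TF: averaging over long directions.
-/

set_option autoImplicit false

open scoped Pointwise

namespace Pool.Agent.W976.TF

open Pool.Agent.W861.TF

/-- the progression as a finite set -/
theorem prog_eq {G : Type} [AddCommGroup G] [DecidableEq G] {d : ℕ} (a : G) (v : Fin d → G)
    (N : Fin d → ℕ) : prog a v N = (((Fintype.piFinset fun i => Finset.range (N i)).image
      (fun k => a + ∑ i, k i • v i) : Finset G) : Set G) := by
  ext x
  simp only [prog, Set.mem_ofPred_eq, Finset.coe_image, Set.mem_image, Finset.mem_coe,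
    Fintype.mem_piFinset, Finset.mem_range]
  constructor
  · rintro ⟨k, h1, h2⟩
    exact ⟨k, h1, h2.symm⟩
  · rintro ⟨k, h1, h2⟩
    exact ⟨k, h1, h2.symm⟩

theorem avg1 : S_AVG1 := by
  intro G _ d m Hh a v N I F hI hHN hF
  classical
  set P : Finset G := (Fintype.piFinset fun i => Finset.range (N i)).image
      (fun k => a + ∑ i, k i • v i) with hP
  have hPn : (prog a v N).ncard = P.card := by
    rw [prog_eq, Set.ncard_coe_finset]
  rw [hPn]
  set T : Finset G := ((Finset.univ : Finset (Finset (Fin m))) ×ˢ P).image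
    (fun x => x.2 + ∑ i ∈ x.1, N (I i) • v (I i)) with hT
  have hTc : T.card ≤ 2 ^ m * P.card := by
    refine Finset.card_image_le.trans ?_
    rw [Finset.card_product]
    simp
  set Φ : G × (Fin m → Fin Hh) → G := fun x => x.1 + ∑ i, ((x.2 i : ℕ)) • v (I i) with hΦ
  have hmaps : ∀ x ∈ F ×ˢ (Finset.univ : Finset (Fin m → Fin Hh)), Φ x ∈ T := by
    rintro ⟨f, k⟩ hx
    have hf : f ∈ F := (Finset.mem_product.1 hx).1
    obtain ⟨k0, hk0, hfk⟩ := hF hf
    set e : Fin d → ℕ := Function.extend I (fun i => (k i : ℕ)) 0 with he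
    have heI : ∀ i, e (I i) = k i := fun i => hI.extend_apply _ _ i
    have heN : ∀ j, j ∉ Set.range I → e j = 0 := by
      intro j hj
      rw [he, Function.extend_apply']
      · rfl
      · rintro ⟨i, hi⟩
        exact hj ⟨i, hi⟩
    have he2 : ∀ j, k0 j + e j < 2 * N j := by
      intro j
      by_cases hj : j ∈ Set.range I
      · obtain ⟨i, rfl⟩ := hj
        rw [heI]
        have h1 := hk0 (I i)
        have h2 := hHN i
        have h3 := (k i).2
        omega
      · rw [heN j hj]
        have h1 := hk0 j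
        omega
    rw [hT, Finset.mem_image]
    refine ⟨(Finset.univ.filter fun i => (k0 (I i) + e (I i)) / N (I i) = 1,
      a + ∑ j, ((k0 j + e j) % N j) • v j), ?_, ?_⟩
    · rw [Finset.mem_product]
      refine ⟨Finset.mem_univ _, ?_⟩
      rw [hP, Finset.mem_image]
      refine ⟨fun j => (k0 j + e j) % N j, ?_, rfl⟩
      rw [Fintype.mem_piFinset]
      intro j
      rw [Finset.mem_range]
      exact Nat.mod_lt _ (lt_of_le_of_lt (Nat.zero_le _) (hk0 j))
    · simp only [hΦ]
      rw [hfk]
      have h1 : ∑ i, ((k i : ℕ)) • v (I i) = ∑ j, e j • v j := by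
        refine Fintype.sum_of_injective I hI _ _ ?_ ?_
        · intro j hj
          rw [heN j hj, zero_smul]
        · intro i
          rw [heI]
      have h2 : ∑ i ∈ Finset.univ.filter (fun i => (k0 (I i) + e (I i)) / N (I i) = 1),
          N (I i) • v (I i) = ∑ j, ((k0 j + e j) / N j * N j) • v j := by
        rw [Finset.sum_filter]
        refine Fintype.sum_of_injective I hI _ _ ?_ ?_
        · intro j hj
          rw [heN j hj, add_zero, Nat.div_eq_of_lt (hk0 j), zero_mul, zero_smul]
        · intro i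
          have h3 : (k0 (I i) + e (I i)) / N (I i) < 2 := by
            rw [Nat.div_lt_iff_lt_mul (lt_of_le_of_lt (Nat.zero_le _) (hk0 (I i)))]
            exact he2 (I i)
          split_ifs with h4
          · rw [h4, one_mul]
          · have h5 : (k0 (I i) + e (I i)) / N (I i) = 0 :=
              Nat.lt_one_iff.1 (lt_of_le_of_ne (Nat.lt_succ_iff.1 h3) h4)
            rw [h5, zero_mul, zero_smul]
      rw [h2, h1, add_assoc, add_assoc, ← Finset.sum_add_distrib, ← Finset.sum_add_distrib]
      congr 1
      refine Finset.sum_congr rfl fun j _ => ?_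
      rw [← add_smul, ← add_smul]
      congr 1
      rw [mul_comm]
      exact Nat.mod_add_div _ _
  have hcount := Finset.card_eq_sum_card_fiberwise hmaps
  have hcard : (F ×ˢ (Finset.univ : Finset (Fin m → Fin Hh))).card = F.card * Hh ^ m := by
    rw [Finset.card_product]
    simp
  rw [hcard] at hcount
  have hfib : ∀ y : G, ((F ×ˢ (Finset.univ : Finset (Fin m → Fin Hh))).filter
      (fun x => Φ x = y)).card ≤
      Set.ncard {k : Fin m → Fin Hh | y - ∑ i, ((k i : ℕ) : ℤ) • v (I i) ∈ F} := by
    intro y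
    rw [← Set.ncard_coe_finset]
    refine Set.ncard_le_ncard_of_injOn (fun x => x.2) ?_ ?_ (Set.toFinite _)
    · rintro ⟨f, k⟩ hx
      simp only [Finset.coe_filter, Set.mem_ofPred_eq, Finset.mem_product] at hx ⊢
      have h1 : y - ∑ i, ((k i : ℕ) : ℤ) • v (I i) = f := by
        rw [← hx.2, hΦ]
        simp only [natCast_zsmul]
        abel
      rw [h1]
      exact hx.1.1
    · rintro ⟨f, k⟩ hx ⟨f', k'⟩ hx' hkk
      simp only [Finset.coe_filter, Set.mem_ofPred_eq, Finset.mem_product] at hx hx' hkk
      subst hkk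
      have h1 := hx.2.trans hx'.2.symm
      rw [hΦ] at h1
      simp only [add_left_inj] at h1
      rw [h1]
  by_contra hcon
  push Not at hcon
  rcases T.eq_empty_or_nonempty with hTe | hTn
  · rw [hTe, Finset.sum_empty] at hcount
    have := hcon 0
    omega
  · have h1 : ∑ y ∈ T, 2 ^ m * P.card *
        Set.ncard {k : Fin m → Fin Hh | y - ∑ i, ((k i : ℕ) : ℤ) • v (I i) ∈ F} <
        ∑ _y ∈ T, F.card * Hh ^ m := Finset.sum_lt_sum_of_nonempty hTn fun y _ => hcon y
    rw [Finset.sum_const, smul_eq_mul, ← Finset.mul_sum] at h1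
    have h2 : F.card * Hh ^ m ≤ ∑ y ∈ T,
        Set.ncard {k : Fin m → Fin Hh | y - ∑ i, ((k i : ℕ) : ℤ) • v (I i) ∈ F} := by
      rw [hcount]
      exact Finset.sum_le_sum fun y _ => hfib y
    have h3 : T.card * (F.card * Hh ^ m) ≤ 2 ^ m * P.card * (F.card * Hh ^ m) :=
      Nat.mul_le_mul_right _ hTc
    have h4 := Nat.mul_le_mul_left (2 ^ m * P.card) h2
    omega

end Pool.Agent.W976.TF
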